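import Pool.Agent.Helper4.RG.Pd
import Pool.Agent.Helper8.KP.Base

/-!
# Hajnal-Máté graphs

If every vertex `β` of a graph on `ω₁` has only finitely many neighbours below every `ξ < β`, then any two
uncountable families of pairwise disjoint finite sets have members without edges between them.
-/

namespace Pool.Agent.Helper4.RG

open Set Pool.Agent.Helper8.KP

/-- the members of an uncountable family of pairwise disjoint finite sets which avoid a countable set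
are uncountably many -/
theorem avoid_countable {V : Type} {𝒜 : Set (Finset V)} (hA : ¬ 𝒜.Countable)
    (hd : ∀ A ∈ 𝒜, ∀ A' ∈ 𝒜, A ≠ A' → Disjoint A A') {C : Set V} (hC : C.Countable) :
    ¬ {A ∈ 𝒜 | ∀ u ∈ A, u ∉ C}.Countable := by
  classical
  intro h
  apply hA
  have h2 : {A ∈ 𝒜 | ∃ u ∈ A, u ∈ C}.Countable := by
    have h3 : ∀ A : Finset V, ∃ u, A ∈ {A ∈ 𝒜 | ∃ u ∈ A, u ∈ C} → u ∈ A ∧ u ∈ C := by
      intro A
      by_cases hA' : A ∈ {A ∈ 𝒜 | ∃ u ∈ A, u ∈ C}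
      · obtain ⟨u, hu⟩ := hA'.2
        exact ⟨u, fun _ => hu⟩
      · by_cases hV : Nonempty V
        · exact ⟨hV.some, fun h' => absurd h' hA'⟩
        · exfalso
          apply hA
          have : IsEmpty V := not_nonempty_iff.1 hV
          exact Set.to_countable 𝒜
    choose f hf using h3
    refine Set.MapsTo.countable_of_injOn (f := f) (t := C) (fun A hA' => (hf A hA').2) ?_ hC
    intro A hA1 A' hA2 he
    by_contra hne
    refine Finset.disjoint_left.1 (hd A hA1.1 A' hA2.1 hne) (hf A hA1).1 ?_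
    rw [he]
    exact (hf A' hA2).1
  refine (h.union h2).mono ?_
  intro A hA'
  by_cases h3 : ∃ u ∈ A, u ∈ C
  · exact Or.inr ⟨hA', h3⟩
  · push Not at h3
    exact Or.inl ⟨hA', h3⟩

theorem hm_rect {Ω : Type} [LinearOrder Ω] [WellFoundedLT Ω] [Uncountable Ω]
    (hc : ∀ a : Ω, (Iio a).Countable) (G : SimpleGraph Ω)
    (hfin : ∀ ξ β, ξ < β → {α | α < ξ ∧ G.Adj α β}.Finite)
    (𝒜 ℬ : Set (Finset Ω)) (hA : ¬ 𝒜.Countable) (hB : ¬ ℬ.Countable)
    (hdA : ∀ A ∈ 𝒜, ∀ A' ∈ 𝒜, A ≠ A' → Disjoint A A')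
    (hdB : ∀ B ∈ ℬ, ∀ B' ∈ ℬ, B ≠ B' → Disjoint B B') :
    ∃ A ∈ 𝒜, ∃ B ∈ ℬ, ∀ u ∈ A, ∀ v ∈ B, ¬ G.Adj u v := by
  classical
  have hne : ∀ {S : Set (Finset Ω)}, ¬ S.Countable → S.Nonempty := by
    intro S hS
    rw [nonempty_iff_ne_empty]
    rintro rfl
    exact hS countable_empty
  have hIic : ∀ ζ : Ω, (Iic ζ).Countable := by
    intro ζ
    rw [← Iio_insert]
    exact (hc ζ).insert ζ
  have hBη : ∀ η : Ω, ∃ B ∈ ℬ, ∀ v ∈ B, η < v := by
    intro η
    obtain ⟨B, hB1, hB2⟩ := hne (avoid_countable hB hdB (hIic η))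
    exact ⟨B, hB1, fun v hv => not_le.1 (hB2 v hv)⟩
  choose B hB1 hB2 using hBη
  have hgf : ∀ η, {α | α < η ∧ ∃ v ∈ B η, G.Adj α v}.Finite := by
    intro η
    refine ((B η).finite_toSet.biUnion (t := fun v => {α | α < η ∧ G.Adj α v})
      (fun v hv => hfin η v (hB2 η v hv))).subset ?_
    rintro α ⟨h1, v, hv, h2⟩
    exact mem_biUnion hv ⟨h1, h2⟩
  obtain ⟨c, Γ, hΓ⟩ := press hc (C := Unit) (K := Unit) id (fun _ => ())
    (fun η => (hgf η).toFinset.image (fun α => ((), α))) (by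
      intro η p hp
      obtain ⟨α, hα, rfl⟩ := Finset.mem_image.1 hp
      exact ((hgf η).mem_toFinset.1 hα).1)
  obtain ⟨A, hA1, hA2⟩ := hne (avoid_countable hA hdA (C := ((Γ.image Prod.snd : Finset Ω) : Set Ω))
    (Finset.countable_toSet _))
  -- an index of the fibre above `A`
  obtain ⟨β, hβ⟩ := exists_above hc (A.countable_toSet)
  obtain ⟨η, hη, hβη⟩ : ∃ η ∈ {η | (∀ ζ, ζ < η → id ζ < η) ∧ (fun _ : Ω => ()) η = c ∧
      (hgf η).toFinset.image (fun α => ((), α)) = Γ}, β ≤ η := by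
    by_contra h
    push Not at h
    refine hΓ ((hc β).mono ?_)
    intro η hη
    exact h η hη
  refine ⟨A, hA1, B η, hB1 η, fun u hu v hv huv => ?_⟩
  refine hA2 u hu ?_
  have h1 : u ∈ (hgf η).toFinset :=
    (hgf η).mem_toFinset.2 ⟨(hβ u hu).trans_le hβη, v, hv, huv⟩
  have h2 : (((), u) : Unit × Ω) ∈ Γ := by
    rw [← hη.2.2]
    exact Finset.mem_image_of_mem _ h1
  exact Finset.mem_coe.2 (Finset.mem_image.2 ⟨((), u), h2, rfl⟩)

end Pool.Agent.Helper4.RG
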