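import Mathlib

/-!
# Pressing down for finite sets

`Ω` is uncountable, well-ordered, with countable initial segments.
-/

namespace Pool.Agent.Helper4.RG

open Set

variable {Ω : Type} [LinearOrder Ω]

/-- a countable set is strictly bounded -/
theorem exists_above [Uncountable Ω] (hc : ∀ a : Ω, (Iio a).Countable) {A : Set Ω}
    (hA : A.Countable) : ∃ b, ∀ a ∈ A, a < b := by
  by_contra h
  push Not at h
  apply Set.not_countable_univ (α := Ω)
  refine (hA.biUnion (t := fun a _ => Iic a) fun a _ => ?_).mono ?_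
  · rw [← Iio_insert]
    exact (hc a).insert a
  · intro b _
    obtain ⟨a, ha, hb⟩ := h b
    exact mem_biUnion ha hb

theorem press [WellFoundedLT Ω] [Uncountable Ω] (hc : ∀ a : Ω, (Iio a).Countable) {C K : Type}
    [Countable C] [Countable K] (b : Ω → Ω) (h : Ω → C) (g : Ω → Finset (K × Ω))
    (hg : ∀ η, ∀ p ∈ g η, p.2 < η) :
    ∃ (c : C) (Γ : Finset (K × Ω)),
      ¬ {η | (∀ ζ, ζ < η → b ζ < η) ∧ h η = c ∧ g η = Γ}.Countable := by
  classical
  by_contra hcon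
  push Not at hcon
  have hB : ∀ (c : C) (Γ : Finset (K × Ω)), ∃ β, ∀ η ∈ {η | (∀ ζ, ζ < η → b ζ < η) ∧ h η = c ∧ g η = Γ},
      η < β := fun c Γ => exists_above hc (hcon c Γ)
  choose B hB using hB
  have hfin : ∀ ζ : Ω, {Γ : Finset (K × Ω) | ∀ p ∈ Γ, p.2 < ζ}.Countable := by
    intro ζ
    have h1 : ((univ : Set K) ×ˢ Iio ζ).Countable := (Set.countable_univ).prod (hc ζ)
    have h2 := Set.countable_ofPred_finite_subset h1
    refine Set.MapsTo.countable_of_injOn (f := fun Γ : Finset (K × Ω) => (Γ : Set (K × Ω))) ?_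
      (Finset.coe_injective.injOn) h2
    intro Γ hΓ
    refine ⟨Γ.finite_toSet, fun p hp => ⟨mem_univ _, hΓ p hp⟩⟩
  have hN : ∀ ζ : Ω, ∃ ν, ζ < ν ∧ (∀ θ, θ ≤ ζ → b θ < ν) ∧
      ∀ (c : C) (Γ : Finset (K × Ω)), (∀ p ∈ Γ, p.2 < ζ) → B c Γ < ν := by
    intro ζ
    have hIic : (Iic ζ).Countable := by
      rw [← Iio_insert]
      exact (hc ζ).insert ζ
    obtain ⟨ν, hν⟩ := exists_above hc (A := {ζ} ∪ b '' Iic ζ ∪
      (fun q : C × Finset (K × Ω) => B q.1 q.2) '' (univ ×ˢ {Γ | ∀ p ∈ Γ, p.2 < ζ}))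
      (((countable_singleton ζ).union (hIic.image b)).union
        ((Set.countable_univ.prod (hfin ζ)).image _))
    refine ⟨ν, hν _ (Or.inl (Or.inl rfl)), fun θ hθ => hν _ (Or.inl (Or.inr ⟨θ, hθ, rfl⟩)),
      fun c Γ hΓ => hν _ (Or.inr ⟨(c, Γ), ⟨mem_univ _, hΓ⟩, rfl⟩)⟩
  choose N hN1 hN2 hN3 using hN
  obtain ⟨a0⟩ : Nonempty Ω := inferInstance
  obtain ⟨z, hz⟩ : ∃ z : ℕ → Ω, ∀ n, z (n + 1) = N (z n) :=
    ⟨fun n => Nat.rec a0 (fun _ x => N x) n, fun n => rfl⟩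
  have hzlt : ∀ n, z n < z (n + 1) := fun n => by rw [hz]; exact hN1 _
  have hzm : StrictMono z := strictMono_nat_of_lt_succ hzlt
  -- the least upper bound
  obtain ⟨η, hη1, hη2⟩ : ∃ η, (∀ n, z n ≤ η) ∧ ∀ θ, θ < η → ∃ n, θ < z n := by
    obtain ⟨β, hβ⟩ := exists_above hc (Set.countable_range z)
    have hne : {η : Ω | ∀ n, z n ≤ η}.Nonempty := ⟨β, fun n => (hβ _ ⟨n, rfl⟩).le⟩
    refine ⟨WellFounded.min (wellFounded_lt (α := Ω)) _ hne,
      WellFounded.min_mem (wellFounded_lt (α := Ω)) _ hne, fun θ hθ => ?_⟩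
    by_contra h1
    push Not at h1
    exact WellFounded.not_lt_min (wellFounded_lt (α := Ω)) {η : Ω | ∀ n, z n ≤ η} h1 hθ
  have hlt : ∀ n, z n < η := fun n => (hzlt n).trans_le (hη1 _)
  have hcl : ∀ ζ, ζ < η → b ζ < η := by
    intro ζ hζ
    obtain ⟨n, hn⟩ := hη2 ζ hζ
    exact (hN2 (z n) ζ hn.le).trans_le (by rw [← hz]; exact hη1 _)
  have hbd : ∀ Γ : Finset (K × Ω), (∀ p ∈ Γ, p.2 < η) → ∃ n, ∀ p ∈ Γ, p.2 < z n := by
    intro Γ
    induction Γ using Finset.induction_on with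
    | empty => exact fun _ => ⟨0, by simp⟩
    | insert p Γ _ ih =>
      intro hΓ
      obtain ⟨n, hn⟩ := ih (fun q hq => hΓ q (Finset.mem_insert_of_mem hq))
      obtain ⟨m, hm⟩ := hη2 p.2 (hΓ p (Finset.mem_insert_self _ _))
      refine ⟨max n m, fun q hq => ?_⟩
      rcases Finset.mem_insert.1 hq with rfl | hq
      · exact hm.trans_le (hzm.monotone (le_max_right _ _))
      · exact (hn q hq).trans_le (hzm.monotone (le_max_left _ _))
  obtain ⟨n, hn⟩ := hbd (g η) (hg η)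
  have h1 := hB (h η) (g η) η ⟨hcl, rfl, rfl⟩
  have h2 := hN3 (z n) (h η) (g η) hn
  rw [← hz] at h2
  exact absurd (h1.trans h2) (not_lt.2 (hη1 _))

end Pool.Agent.Helper4.RG
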