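import Mathlib
import Pool.Agent.Helper8.KP.Base

/-!
# Trees without uncountable chains (Baumgartner-Malitz-Reinhardt)

In a partial order whose initial segments are chains and which has no uncountable chain, any two
uncountable families of pairwise disjoint finite sets have members without comparable elements.
-/

namespace Pool.Agent.Helper4.RG

open Set Pool.Agent.Helper8.KP

theorem tree_rect {V : Type} [PartialOrder V] (htree : ∀ v a b : V, a ≤ v → b ≤ v → a ≤ b ∨ b ≤ a)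
    (hch : ∀ C : Set V, (∀ a ∈ C, ∀ b ∈ C, a ≤ b ∨ b ≤ a) → C.Countable)
    (𝒜 ℬ : Set (Finset V)) (hA : ¬ 𝒜.Countable) (hB : ¬ ℬ.Countable)
    (hdA : ∀ A ∈ 𝒜, ∀ A' ∈ 𝒜, A ≠ A' → Disjoint A A')
    (hdB : ∀ B ∈ ℬ, ∀ B' ∈ ℬ, B ≠ B' → Disjoint B B') :
    ∃ A ∈ 𝒜, ∃ B ∈ ℬ, ∀ u ∈ A, ∀ v ∈ B, ¬ (u < v ∨ v < u) := by
  classical
  by_contra hcon
  push Not at hcon
  obtain ⟨n, hn⟩ := pigeon hB (fun B => B.card)
  obtain ⟨ℬ', hℬ'⟩ : ∃ ℬ' : Set (Finset V), ℬ' = {B ∈ ℬ | B.card = n} := ⟨_, rfl⟩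
  rw [← hℬ'] at hn
  have hsub : ∀ B : ↥ℬ', (B : Finset V) ∈ ℬ ∧ (B : Finset V).card = n := by
    rintro ⟨B, hB'⟩
    rw [hℬ'] at hB'
    exact hB'
  have henum : ∀ B : ↥ℬ', ∃ g : Fin n → V, ∀ v, v ∈ (B : Finset V) ↔ ∃ j, g j = v := by
    intro B
    refine ⟨fun j => ((Finset.equivFinOfCardEq (hsub B).2).symm j : V), fun v => ⟨fun hv => ?_, ?_⟩⟩
    · exact ⟨Finset.equivFinOfCardEq (hsub B).2 ⟨v, hv⟩, by simp⟩
    · rintro ⟨j, rfl⟩
      exact Subtype.prop _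
  choose g hg using henum
  have hUn : Uncountable ↥ℬ' := by
    rw [← not_countable_iff]
    intro h
    exact hn (Set.countable_coe_iff.1 h)
  have hNe : (Filter.cocountable : Filter ↥ℬ').NeBot := by
    rw [Filter.neBot_iff]
    intro h
    have h2 : (∅ : Set ↥ℬ') ∈ (Filter.cocountable : Filter ↥ℬ') := by
      rw [h]
      exact Filter.mem_bot
    rw [Filter.mem_cocountable, compl_empty] at h2
    exact Set.not_countable_univ h2
  obtain ⟨U, hU⟩ : ∃ U : Ultrafilter ↥ℬ', (U : Filter ↥ℬ') ≤ Filter.cocountable :=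
    ⟨Ultrafilter.of Filter.cocountable, Ultrafilter.of_le _⟩
  have h1 : ∀ A : ↥𝒜, ∃ u ∈ (A : Finset V), ∃ j : Fin n, ∀ᶠ B in (U : Filter ↥ℬ'),
      (u < g B j ∨ g B j < u) := by
    intro A
    by_contra h
    push Not at h
    have h2 : ∀ᶠ B in (U : Filter ↥ℬ'), ∀ u ∈ (A : Finset V), ∀ j : Fin n,
        ¬ (u < g B j ∨ g B j < u) := by
      rw [Filter.eventually_all_finset]
      intro u hu
      rw [Filter.eventually_all]
      intro j
      filter_upwards [h u hu j] with B hB'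
      exact fun h' => h'.elim hB'.1 hB'.2
    obtain ⟨B, hB'⟩ := h2.exists
    obtain ⟨u, hu, v, hv, huv⟩ := hcon A.1 A.2 B.1 (hsub B).1
    obtain ⟨j, rfl⟩ := (hg B v).1 hv
    exact hB' u hu j huv
  choose u hu j hj using h1
  have hunc : ¬ (univ : Set ↥𝒜).Countable := by
    intro h
    exact hA (Set.countable_coe_iff.1 (Set.countable_univ_iff.1 h))
  obtain ⟨j0, hj0⟩ := pigeon hunc j
  have hlow : ∀ w : V, ∀ᶠ B in (U : Filter ↥ℬ'), ¬ g B j0 < w := by
    intro w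
    apply hU
    rw [Filter.mem_cocountable]
    have h3 : (Set.Iic w).Countable := hch _ (fun a ha b hb => htree w a b ha hb)
    have hinj : InjOn (fun B : ↥ℬ' => g B j0) {B : ↥ℬ' | ¬ g B j0 < w}ᶜ := by
      intro B _ B' _ h
      by_contra hne
      have h4 := hdB B.1 (hsub B).1 B'.1 (hsub B').1 (fun h' => hne (Subtype.ext h'))
      have h5 : g B j0 = g B' j0 := h
      exact Finset.disjoint_left.1 h4 ((hg B _).2 ⟨j0, rfl⟩) ((hg B' _).2 ⟨j0, h5.symm⟩)
    refine Set.MapsTo.countable_of_injOn (t := Set.Iic w) ?_ hinj h3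
    intro B hB'
    simp only [mem_compl_iff, mem_ofPred_eq, not_not] at hB'
    exact hB'.le
  have hinj : InjOn u {A ∈ (univ : Set ↥𝒜) | j A = j0} := by
    intro A _ A' _ h
    by_contra hne
    have h3 := hdA A.1 A.2 A'.1 A'.2 (fun h' => hne (Subtype.ext h'))
    exact Finset.disjoint_left.1 h3 (hu A) (by rw [h]; exact hu A')
  have hC : (u '' {A ∈ (univ : Set ↥𝒜) | j A = j0}).Countable := by
    apply hch
    rintro _ ⟨A, ⟨-, hA1⟩, rfl⟩ _ ⟨A', ⟨-, hA2⟩, rfl⟩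
    have e1 := hj A
    have e2 := hj A'
    rw [hA1] at e1
    rw [hA2] at e2
    obtain ⟨B, ⟨h3, h4⟩, h5, h6⟩ := ((e1.and (hlow (u A))).and (e2.and (hlow (u A')))).exists
    refine htree (g B j0) _ _ ?_ ?_
    · exact (h3.resolve_right h4).le
    · exact (h5.resolve_right h6).le
  exact hj0 ((Set.mapsTo_image _ _).countable_of_injOn hinj hC)

end Pool.Agent.Helper4.RG
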